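import Pool.Agent.H69.MQ.Stm

set_option autoImplicit false

namespace Pool.Agent.H69.MQ

open Finset

lemma le_mob {V : Type} [Fintype V] [DecidableEq V] {G : SimpleGraph V} {S : Finset V}
    (h : Mobile G S) : S.card ≤ mob G :=
  le_csSup ⟨Fintype.card V, by rintro k ⟨S, -, rfl⟩; exact S.card_le_univ⟩ ⟨S, h, rfl⟩

lemma le_gp {V : Type} [Fintype V] {G : SimpleGraph V} {S : Finset V}
    (h : GP G S) : S.card ≤ gp G :=
  le_csSup ⟨Fintype.card V, by rintro k ⟨S, -, rfl⟩; exact S.card_le_univ⟩ ⟨S, h, rfl⟩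

lemma gp_singleton {V : Type} (G : SimpleGraph V) (v : V) : GP G {v} := by
  intro x hx y hy z hz hxy
  rw [mem_singleton] at hx hy
  exact absurd (hx.trans hy.symm) hxy

lemma exists_gp {V : Type} [Fintype V] (G : SimpleGraph V) :
    ∃ S : Finset V, GP G S ∧ S.card = gp G := by
  have h : gp G ∈ {k | ∃ S : Finset V, GP G S ∧ S.card = k} := by
    apply Nat.sSup_mem
    · refine ⟨0, ∅, ?_, rfl⟩
      intro x hx
      simp at hx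
    · exact ⟨Fintype.card V, by rintro k ⟨S, -, rfl⟩; exact S.card_le_univ⟩
  exact h

lemma mob_le_gp {V : Type} [Fintype V] [DecidableEq V] (G : SimpleGraph V) : mob G ≤ gp G := by
  unfold mob
  rcases Set.eq_empty_or_nonempty {k | ∃ S : Finset V, Mobile G S ∧ S.card = k} with h | h
  · rw [h]
    simp
  · apply csSup_le h
    rintro k ⟨S, hS, rfl⟩
    exact le_gp hS.1

lemma large_n : ∃ N : ℕ, ∀ n ≥ N, ∃ k : ℕ, 1 ≤ n ∧ 3 ≤ k ∧ 32 * n * k ^ 2 * 3 ^ n ≤ 3 * 4 ^ n ∧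
    (23 / 20 : ℝ) ^ n ≤ k := by
  have h1 : Filter.Tendsto (fun n : ℕ => (n : ℝ) * (1587 / 1600 : ℝ) ^ n) Filter.atTop (nhds 0) :=
    tendsto_self_mul_const_pow_of_lt_one (by norm_num) (by norm_num)
  have h2 : Filter.Tendsto (fun n : ℕ => (23 / 20 : ℝ) ^ n) Filter.atTop Filter.atTop :=
    tendsto_pow_atTop_atTop_of_one_lt (by norm_num)
  have h3 : ∀ᶠ n : ℕ in Filter.atTop, (n : ℝ) * (1587 / 1600 : ℝ) ^ n < 3 / 128 :=
    h1.eventually_lt_const (by norm_num)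
  have h4 : ∀ᶠ n : ℕ in Filter.atTop, (3 : ℝ) ≤ (23 / 20 : ℝ) ^ n := h2.eventually_ge_atTop 3
  obtain ⟨N, hN⟩ := Filter.eventually_atTop.1 (h3.and h4)
  refine ⟨N + 1, fun n hn => ⟨⌈(23 / 20 : ℝ) ^ n⌉₊, by omega, ?_, ?_, Nat.le_ceil _⟩⟩
  · have := (hN n (by omega)).2
    have h5 := Nat.le_ceil ((23 / 20 : ℝ) ^ n)
    exact_mod_cast this.trans h5
  · obtain ⟨ha, hb⟩ := hN n (by omega)
    have hk : ((⌈(23 / 20 : ℝ) ^ n⌉₊ : ℕ) : ℝ) ≤ 2 * (23 / 20 : ℝ) ^ n := by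
      have := (Nat.ceil_lt_add_one (by positivity : (0 : ℝ) ≤ (23 / 20 : ℝ) ^ n)).le
      linarith
    have hk2 : ((⌈(23 / 20 : ℝ) ^ n⌉₊ : ℕ) : ℝ) ^ 2 ≤ 4 * (529 / 400 : ℝ) ^ n := by
      calc ((⌈(23 / 20 : ℝ) ^ n⌉₊ : ℕ) : ℝ) ^ 2 ≤ (2 * (23 / 20 : ℝ) ^ n) ^ 2 := by gcongr
        _ = 4 * (529 / 400 : ℝ) ^ n := by
          rw [mul_pow, ← pow_mul, mul_comm n 2, pow_mul]
          norm_num
    have hfin : (32 * (n : ℝ) * ((⌈(23 / 20 : ℝ) ^ n⌉₊ : ℕ) : ℝ) ^ 2 * 3 ^ n) ≤ 3 * 4 ^ n := by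
      calc (32 * (n : ℝ) * ((⌈(23 / 20 : ℝ) ^ n⌉₊ : ℕ) : ℝ) ^ 2 * 3 ^ n)
          ≤ 32 * (n : ℝ) * (4 * (529 / 400 : ℝ) ^ n) * 3 ^ n := by gcongr
        _ = 128 * ((n : ℝ) * (1587 / 1600 : ℝ) ^ n) * 4 ^ n := by
          have e : (1587 / 1600 : ℝ) ^ n * 4 ^ n = (529 / 400 : ℝ) ^ n * 3 ^ n := by
            rw [← mul_pow, ← mul_pow]
            norm_num
          linear_combination (-128 * (n : ℝ)) * e
        _ ≤ 3 * 4 ^ n := by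
          apply mul_le_mul_of_nonneg_right _ (by positivity)
          linarith
    exact_mod_cast hfin

theorem main (hMOV : S_MOV) (hEXP : S_EXP) (hDBL : S_DBL) (hUPP : S_UPP) :
    (∀ n k : ℕ, 1 ≤ n → 3 ≤ k → 32 * n * k ^ 2 * 3 ^ n ≤ 3 * 4 ^ n → k ≤ mob (cube n)) ∧
    (∃ N : ℕ, ∀ n ≥ N, (23 / 20 : ℝ) ^ n ≤ mob (cube n)) ∧
    (∀ n : ℕ, gp (cube n) ≤ mob (cube (n + n))) ∧
    (∀ a b : ℕ, mob (cube (a + b)) ≤ gp (cube (a + b)) ∧ gp (cube (a + b)) ≤ 2 ^ a + 2 ^ b) := by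
  have h1 : ∀ n k : ℕ, 1 ≤ n → 3 ≤ k → 32 * n * k ^ 2 * 3 ^ n ≤ 3 * 4 ^ n → k ≤ mob (cube n) := by
    intro n k hn hk h
    obtain ⟨S, hS, hR⟩ := hEXP n k hn hk h
    refine hS.trans (le_mob (hMOV n S hR ?_))
    rw [← Finset.card_pos]
    omega
  refine ⟨h1, ?_, ?_, ?_⟩
  · obtain ⟨N, hN⟩ := large_n
    refine ⟨N, fun n hn => ?_⟩
    obtain ⟨k, hn1, hk, h, hle⟩ := hN n hn
    exact hle.trans (by exact_mod_cast h1 n k hn1 hk h)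
  · intro n
    obtain ⟨S, hS, hc⟩ := exists_gp (cube n)
    obtain ⟨S', hc', hR⟩ := hDBL n S hS
    have hpos : 1 ≤ gp (cube n) := by
      have := le_gp (gp_singleton (cube n) (fun _ => true))
      simpa using this
    have : S'.Nonempty := by
      rw [← Finset.card_pos]
      omega
    have h2 := le_mob (hMOV (n + n) S' hR this)
    omega
  · intro a b
    refine ⟨mob_le_gp _, ?_⟩
    obtain ⟨S, hS, hc⟩ := exists_gp (cube (a + b))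
    rw [← hc]
    exact hUPP a b S hS

end Pool.Agent.H69.MQ
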