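import Pool.Agent.H69.MQ.Stm

set_option autoImplicit false

namespace Pool.Agent.H69.MQ

open Finset

lemma flip_ne_iff {n : ℕ} (i j : Fin n) (x y : Fin n → Bool) :
    flip i x j ≠ flip i y j ↔ x j ≠ y j := by
  unfold flip
  by_cases h : j = i
  · subst h
    simp
  · simp [Function.update_of_ne h]

lemma flip_eq_iff {n : ℕ} (i j : Fin n) (x y : Fin n → Bool) :
    flip i x j = flip i y j ↔ x j = y j := not_iff_not.1 (flip_ne_iff i j x y)

lemma rob_flip {n : ℕ} {S : Finset (Fin n → Bool)} (i : Fin n) (h : Rob S) :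
    Rob (S.image (flip i)) := by
  obtain ⟨h1, h2⟩ := h
  refine ⟨?_, ?_⟩
  · intro x hx y hy hxy
    obtain ⟨x, hx', rfl⟩ := mem_image.1 hx
    obtain ⟨y, hy', rfl⟩ := mem_image.1 hy
    have := h1 x hx' y hy' (fun e => hxy (by rw [e]))
    simpa only [flip_ne_iff] using this
  · intro x hx y hy z hz hxy hyz hxz
    obtain ⟨x, hx', rfl⟩ := mem_image.1 hx
    obtain ⟨y, hy', rfl⟩ := mem_image.1 hy
    obtain ⟨z, hz', rfl⟩ := mem_image.1 hz
    have := h2 x hx' y hy' z hz' (fun e => hxy (by rw [e])) (fun e => hyz (by rw [e]))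
      (fun e => hxz (by rw [e]))
    simpa only [flip_ne_iff, flip_eq_iff] using this

/-- flip the coordinates in `T` -/
def trT {n : ℕ} (T : Finset (Fin n)) (x : Fin n → Bool) : Fin n → Bool :=
  fun i => if i ∈ T then !x i else x i

lemma trT_empty {n : ℕ} (x : Fin n → Bool) : trT ∅ x = x := by
  funext i
  simp [trT]

lemma trT_insert {n : ℕ} (a : Fin n) (T : Finset (Fin n)) (ha : a ∉ T) (x : Fin n → Bool) :
    trT (insert a T) x = flip a (trT T x) := by
  funext i
  by_cases h : i = a
  · subst h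
    simp [trT, flip, ha]
  · simp [trT, flip, h]

lemma reach (hF : S_FLP) {n : ℕ} (S : Finset (Fin n → Bool)) (hS : Rob S) (T : Finset (Fin n)) :
    Rob (S.image (trT T)) ∧ Relation.ReflTransGen (Legal (cube n)) S (S.image (trT T)) := by
  induction T using Finset.induction_on with
  | empty =>
    have : S.image (trT ∅) = S := by
      ext x
      simp [trT_empty]
    rw [this]
    exact ⟨hS, Relation.ReflTransGen.refl⟩
  | insert a T ha ih =>
    have e : S.image (trT (insert a T)) = (S.image (trT T)).image (flip a) := by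
      rw [Finset.image_image]
      apply Finset.image_congr
      intro x _
      exact trT_insert a T ha x
    rw [e]
    exact ⟨rob_flip a ih.1, ih.2.trans (hF n _ a ih.1)⟩

lemma run_mem {V : Type} [DecidableEq V] {G : SimpleGraph V} {S T : Finset V} {W : Set V}
    (h : Run G S T W) : (T : Set V) ⊆ W := by
  cases h with
  | start => exact subset_rfl
  | move T _ W _ _ => exact Set.subset_union_right

lemma run_trans {V : Type} [DecidableEq V] {G : SimpleGraph V} {S T T' : Finset V} {W : Set V}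
    (h : Run G S T W) (h' : Relation.ReflTransGen (Legal G) T T') :
    ∃ W', W ⊆ W' ∧ (T' : Set V) ⊆ W' ∧ Run G S T' W' := by
  induction h' with
  | refl => exact ⟨W, subset_rfl, run_mem h, h⟩
  | tail _ hl ih =>
    obtain ⟨W', h1, _, h3⟩ := ih
    exact ⟨_, h1.trans Set.subset_union_left, Set.subset_union_right, Run.move _ _ _ h3 hl⟩

lemma gp_of_rob (hB : S_BTW) {n : ℕ} {S : Finset (Fin n → Bool)} (h : Rob S) : GP (cube n) S := by
  intro x hx y hy z hz hxy hyz hxz
  rw [hB]
  have := h.2 x hx y hy z hz hxy hyz hxz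
  have h0 : 0 < (univ.filter fun i => x i = z i ∧ y i ≠ x i).card := by omega
  obtain ⟨i, hi⟩ := Finset.card_pos.1 h0
  exact ⟨i, (mem_filter.1 hi).2⟩

lemma visits (hF : S_FLP) {n : ℕ} (S : Finset (Fin n → Bool)) (hS : Rob S) (hne : S.Nonempty)
    (F : Finset (Fin n → Bool)) :
    ∃ (S' : Finset (Fin n → Bool)) (W : Set (Fin n → Bool)), Rob S' ∧ S'.Nonempty ∧
      Run (cube n) S S' W ∧ (F : Set (Fin n → Bool)) ⊆ W := by
  induction F using Finset.induction_on with
  | empty => exact ⟨S, _, hS, hne, Run.start, by simp⟩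
  | insert v F _ ih =>
    obtain ⟨S', W, hR, ⟨s, hs⟩, hrun, hFW⟩ := ih
    obtain ⟨hR', hreach⟩ := reach hF S' hR (univ.filter fun i => s i ≠ v i)
    obtain ⟨W', h1, h2, h3⟩ := run_trans hrun hreach
    refine ⟨_, W', hR', ⟨_, mem_image_of_mem _ hs⟩, h3, ?_⟩
    rw [coe_insert]
    refine Set.insert_subset ?_ (hFW.trans h1)
    apply h2
    rw [mem_coe, mem_image]
    refine ⟨s, hs, ?_⟩
    funext i
    by_cases h : s i = v i
    · simp [trT, h]
    · have : (!s i) = v i := by
        revert h
        cases s i <;> cases v i <;> simp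
      simp [trT, h, this]

theorem mov (hB : S_BTW) (hF : S_FLP) : S_MOV := by
  intro n S hS hne
  refine ⟨gp_of_rob hB hS, ?_⟩
  obtain ⟨S', W, -, -, hrun, hW⟩ := visits hF S hS hne univ
  have : W = Set.univ := by
    apply Set.eq_univ_of_univ_subset
    simpa using hW
  exact ⟨S', this ▸ hrun⟩

end Pool.Agent.H69.MQ
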