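import Mathlib

/-!
Crew MQ, `MP_15cbb0_co` (mobile general position number of hypercubes): `mob (Q_n)` grows
exponentially, `gp (Q_n) ≤ mob (Q_{2n})`.  Definitions and statements of the parts.
-/

set_option autoImplicit false

namespace Pool.Agent.H69.MQ

open Finset

/-- `S` is a general position set: no vertex of `S` lies on a shortest path between two others -/
def GP {V : Type} (G : SimpleGraph V) (S : Finset V) : Prop :=
  ∀ x ∈ S, ∀ y ∈ S, ∀ z ∈ S, x ≠ y → y ≠ z → x ≠ z → G.dist x z ≠ G.dist x y + G.dist y z

/-- a legal move of one robot from `u ∈ S` to a free neighbour `v` -/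
def Legal {V : Type} [DecidableEq V] (G : SimpleGraph V) (S S' : Finset V) : Prop :=
  ∃ u ∈ S, ∃ v, v ∉ S ∧ G.Adj u v ∧ S' = insert v (S.erase u) ∧ GP G S'

/-- `Run G S T W`: some finite sequence of legal moves leads from `S` to `T`, and `W` is the set of
the vertices which are occupied at some stage (`S` and `T` included) -/
inductive Run {V : Type} [DecidableEq V] (G : SimpleGraph V) (S : Finset V) :
    Finset V → Set V → Prop
  | start : Run G S S (S : Set V)
  | move (T T' : Finset V) (W : Set V) : Run G S T W → Legal G T T' → Run G S T' (W ∪ (T' : Set V))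

/-- mobile general position sets -/
def Mobile {V : Type} [DecidableEq V] (G : SimpleGraph V) (S : Finset V) : Prop :=
  GP G S ∧ ∃ T, Run G S T Set.univ

/-- the mobile general position number -/
noncomputable def mob {V : Type} [DecidableEq V] (G : SimpleGraph V) : ℕ :=
  sSup {k | ∃ S : Finset V, Mobile G S ∧ S.card = k}

/-- the general position number -/
noncomputable def gp {V : Type} (G : SimpleGraph V) : ℕ :=
  sSup {k | ∃ S : Finset V, GP G S ∧ S.card = k}

/-- the hypercube `Q_n` -/
def cube (n : ℕ) : SimpleGraph (Fin n → Bool) where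
  Adj x y := (univ.filter fun i => x i ≠ y i).card = 1
  symm := ⟨by
    intro x y h
    simpa [ne_comm] using h⟩
  loopless := ⟨by
    intro x h
    simp at h⟩

/-- flip the coordinate `i` -/
def flip {n : ℕ} (i : Fin n) (x : Fin n → Bool) : Fin n → Bool := Function.update x i (!x i)

/-- robust general position: distances at least `2`, and each `y` is kept off the shortest paths
between `x` and `z` by at least two coordinates -/
def Rob {n : ℕ} (S : Finset (Fin n → Bool)) : Prop :=
  (∀ x ∈ S, ∀ y ∈ S, x ≠ y → 2 ≤ (univ.filter fun i => x i ≠ y i).card) ∧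
  ∀ x ∈ S, ∀ y ∈ S, ∀ z ∈ S, x ≠ y → y ≠ z → x ≠ z →
    2 ≤ (univ.filter fun i => x i = z i ∧ y i ≠ x i).card

/-- DST. Distance in the hypercube (flip the different coordinates one by one; a walk of length `k`
changes at most `k` coordinates). -/
def S_DST : Prop := ∀ (n : ℕ) (x y : Fin n → Bool),
    (cube n).dist x y = (univ.filter fun i => x i ≠ y i).card

/-- BTW (from `S_DST`). `#{x ≠ y} + #{y ≠ z} - #{x ≠ z} = 2 #{x = z ≠ y}`. -/
def S_BTW : Prop := ∀ (n : ℕ) (x y z : Fin n → Bool),
    (cube n).dist x z ≠ (cube n).dist x y + (cube n).dist y z ↔ ∃ i, x i = z i ∧ y i ≠ x i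

/-- FLP (from `S_BTW`). Let the robots flip the coordinate `i` one after another: by induction on
`T ⊆ S`, `S` can be transformed into `(S \ T) ∪ flip i '' T`. In the intermediate configurations
the coordinates other than `i` still separate (at least one of the two remains), and there are no
collisions since the distances are at least `2`. -/
def S_FLP : Prop := ∀ (n : ℕ) (S : Finset (Fin n → Bool)) (i : Fin n), Rob S →
    Relation.ReflTransGen (Legal (cube n)) S (S.image (flip i))

/-- MOV (from `S_BTW`, `S_FLP`). `S.image (flip i)` is again robust; so all translates `S + w` can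
be reached from each other, and each vertex `v = s + w` lies in one of them. -/
def S_MOV : Prop := ∀ (n : ℕ) (S : Finset (Fin n → Bool)), Rob S → S.Nonempty → Mobile (cube n) S

/-- BAD. For a bad triple all coordinates except one, `j`, avoid the two patterns
`x = z ≠ y`; there are `n` choices of `j`, `8` patterns at `j` and `6` at the others
(`Fintype.card_piFinset`). -/
def S_BAD : Prop := ∀ n : ℕ, 1 ≤ n →
    (univ.filter fun t : (Fin n → Bool) × (Fin n → Bool) × (Fin n → Bool) =>
      (univ.filter fun i => t.1 i = t.2.2 i ∧ t.2.1 i ≠ t.1 i).card ≤ 1).card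
      ≤ n * (8 * 6 ^ (n - 1))

/-- AVG. Average over all `g : Fin N → V` of the number of the bad triples of distinct indices:
for distinct `a, b, c` there are `#Bad * |V| ^ (N - 3)` maps `g` with `(g a, g b, g c) ∈ Bad`
(inject them into `Bad × ({l // l ≠ a ∧ l ≠ b ∧ l ≠ c} → V)`), so for some `g` the number of bad
index triples is at most `N ^ 3 * #Bad / |V| ^ 3 ≤ N / 2`; delete the first index of each. -/
def S_AVG : Prop := ∀ (V : Type) [Fintype V] [DecidableEq V] [Nonempty V]
    (Bad : Finset (V × V × V)) (N : ℕ), 2 * N ^ 2 * Bad.card ≤ Fintype.card V ^ 3 →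
    ∃ (g : Fin N → V) (I : Finset (Fin N)), N ≤ 2 * I.card ∧
      ∀ a ∈ I, ∀ b ∈ I, ∀ c ∈ I, a ≠ b → b ≠ c → a ≠ c → (g a, g b, g c) ∉ Bad

/-- EXP (from `S_BAD`, `S_AVG`). `N = 2 * k`; `S = g '' I`; `g` is injective on `I` since a triple
with `x = y` is bad and `|I| ≥ k ≥ 3`; the distances are at least `2` since `x = z ≠ y` at two
coordinates. `2 (2k)^2 n 8 6^(n-1) ≤ 8^n` follows from the hypothesis. -/
def S_EXP : Prop := ∀ n k : ℕ, 1 ≤ n → 3 ≤ k → 32 * n * k ^ 2 * 3 ^ n ≤ 3 * 4 ^ n →
    ∃ S : Finset (Fin n → Bool), k ≤ S.card ∧ Rob S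

/-- DBL (from `S_BTW`). `x ↦ Fin.append x x`. -/
def S_DBL : Prop := ∀ (n : ℕ) (S : Finset (Fin n → Bool)), GP (cube n) S →
    ∃ S' : Finset (Fin (n + n) → Bool), S'.card = S.card ∧ Rob S'

/-- UPP (from `S_BTW`). If `S` has more elements, then some `y ∈ S` shares its first half with some
`x ∈ S` and its second half with some `z ∈ S`; so `y` lies between `x` and `z`. -/
def S_UPP : Prop := ∀ (a b : ℕ) (S : Finset (Fin (a + b) → Bool)), GP (cube (a + b)) S →
    S.card ≤ 2 ^ a + 2 ^ b

end Pool.Agent.H69.MQ
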